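import Pool.Agent.helper54.TS.Spec

set_option autoImplicit false

open Polynomial Finset

noncomputable section

namespace Pool.Agent.TS

open Pool.Agent.PSA (IsSalem Indep Fac)

theorem THR_fin (s : Finset ℝ) (h : ∀ y ∈ s, y < 1) : ∃ μ : ℝ, μ < 1 ∧ ∀ y ∈ s, y < μ := by
  induction s using Finset.induction_on with
  | empty => exact ⟨0, by norm_num, by simp⟩
  | insert a s ha ih =>
    obtain ⟨μ, h1, h2⟩ := ih (fun y hy => h y (Finset.mem_insert_of_mem hy))
    have h3 := h a (Finset.mem_insert_self a s)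
    refine ⟨max μ ((a + 1) / 2), max_lt h1 (by linarith), ?_⟩
    intro y hy
    rcases Finset.mem_insert.mp hy with rfl | hy
    · exact lt_max_of_lt_right (by linarith)
    · exact lt_max_of_lt_left (h2 y hy)

theorem THR_rho (κ θ r : ℝ) (hκ : 0 < κ) (hθ : 0 < θ) (hr : r < 1) : rho κ θ r < 1 := by
  unfold rho
  split_ifs <;> linarith

theorem THR_per (p : ℕ) (u : ℕ → ℝ) (hu : ∀ n, u (n + p) = u n) (j m : ℕ) :
    u (j + m * p) = u j := by
  induction m with
  | zero => simp
  | succ m ih =>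
    rw [show j + (m + 1) * p = j + m * p + p by ring, hu, ih]

theorem THR (hORP : ORP_stmt) (hGDP : GDP_stmt) : THR_stmt := by
  intro K _ ι β p b κ θ hs
  obtain ⟨-, ho, -⟩ := hORP p b κ θ hs.pb hs.pk hs.pt
  have hκ : ∀ n, 0 < κ n := fun n => by linarith [hs.hk n]
  have hθ : ∀ n, 0 < θ n := fun n => by
    rcases hs.ht n with h | h
    · linarith [h.2]
    · linarith [h.1, hκ n]
  have hlt : ∀ j x n, 1 ≤ n → orb b κ θ j x n < 1 := by
    intro j x n hn
    obtain ⟨m, rfl⟩ : ∃ m, n = m + 1 := ⟨n - 1, by omega⟩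
    exact THR_rho _ _ _ (hκ _) (hθ _) (Int.fract_lt_one _)
  have horb : ∀ j m x n, orb b κ θ (j + m * p) x n = orb b κ θ j x n := by
    intro j m x n
    induction m with
    | zero => simp
    | succ m ih =>
      rw [show j + (m + 1) * p = j + m * p + p by ring, ho, ih]
  have hfin : {y : ℝ | ∃ j < p, Good b κ θ j ∧ ∃ x, St κ θ j x ∧
      y ∈ Set.range (orb b κ θ j x) ∧ y < 1}.Finite := by
    have h1 : (⋃ j ∈ (Finset.range p : Set ℕ), ⋃ x ∈ ({1, κ j, θ j - κ j, 1 - θ j} : Set ℝ),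
        {y | Good b κ θ j ∧ St κ θ j x ∧ y ∈ Set.range (orb b κ θ j x)}).Finite := by
      apply Set.Finite.biUnion (Finset.finite_toSet _)
      intro j _
      apply Set.Finite.biUnion (Set.toFinite _)
      intro x _
      by_cases hg : Good b κ θ j ∧ St κ θ j x
      · exact (hg.1 x hg.2).subset (fun y hy => hy.2.2)
      · refine Set.finite_empty.subset ?_
        rintro y ⟨h2, h3, _⟩
        exact hg ⟨h2, h3⟩
    refine h1.subset ?_
    rintro y ⟨j, hj, hg, x, hx, hy, -⟩
    simp only [Set.mem_iUnion]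
    refine ⟨j, by simpa using hj, x, ?_, hg, hx, hy⟩
    rcases hx with ⟨-, h⟩ | ⟨-, h | h | h⟩ <;> simp [h]
  obtain ⟨s, hs'⟩ := hfin.exists_finset_coe
  obtain ⟨μ, hμ, hall⟩ := THR_fin s (by
    intro y hy
    have hy' : y ∈ (s : Set ℝ) := hy
    rw [hs'] at hy'
    obtain ⟨_, _, _, _, _, _, h⟩ := hy'
    exact h)
  refine ⟨μ, hμ, ?_⟩
  intro j hg x hx n hn
  have hjp : j = j % p + (j / p) * p := by
    have := Nat.mod_add_div j p
    rw [mul_comm] at this
    exact this.symm
  have hg' : Good b κ θ (j % p) := hGDP K ι β p b κ θ hs j (j % p) (Nat.mod_mod j p).symm hg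
  have hκj : κ j = κ (j % p) := by
    rw [hjp, THR_per p κ hs.pk]
    rw [← hjp]
  have hθj : θ j = θ (j % p) := by
    rw [hjp, THR_per p θ hs.pt]
    rw [← hjp]
  have hx' : St κ θ (j % p) x := by
    unfold St at hx ⊢
    rwa [hκj, hθj] at hx
  have horb' : orb b κ θ j x n = orb b κ θ (j % p) x n := by
    have h := horb (j % p) (j / p) x n
    rwa [← hjp] at h
  apply hall
  have hmem : orb b κ θ j x n ∈ (s : Set ℝ) := by
    rw [hs']
    exact ⟨j % p, Nat.mod_lt _ hs.hp, hg', x, hx', ⟨n, horb'.symm⟩, hlt j x n hn⟩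
  exact hmem

end Pool.Agent.TS
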